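import Pool.Agent.Q151.IFull.Emb

/-!
# `MP_d567b2_al`: finitely presented intersection-full groups avoiding `F_2 × ℤ^m`

The group `F_2 × F_2` is finitely presented and intersection-full, and it does not contain
`F_2 × ℤ²`.
-/

namespace Pool.Agent.Results.MP_d567b2_al.FreeTimesFree

/-- The family `H` of `k` subgroups of `G` realizes the `k`-configuration `c`: for every nonempty
set `I` of indices, the intersection of the `H i` with `i ∈ I` is finitely generated if and only
if `c I = 0`. (Only the values of `c` at nonempty sets matter.) -/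
def Realizes {G : Type} [Group G] {k : ℕ} (H : Fin k → Subgroup G)
    (c : Finset (Fin k) → Fin 2) : Prop :=
  ∀ I : Finset (Fin k), I.Nonempty → ((⨅ i ∈ I, H i).FG ↔ c I = 0)

/-- `G` is intersection-full: every `k`-configuration, `k ≥ 1`, is realizable in `G`. -/
def IntersectionFull (G : Type) [Group G] : Prop :=
  ∀ k : ℕ, 1 ≤ k → ∀ c : Finset (Fin k) → Fin 2, ∃ H : Fin k → Subgroup G, Realizes H c

/-- `G` contains `K`: some subgroup of `G` is isomorphic to `K`. -/
def Contains (G K : Type) [Group G] [Group K] : Prop :=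
  ∃ L : Subgroup G, Nonempty (L ≃* K)

/-- `G` is finitely presented: it is isomorphic to a group given by finitely many generators and
finitely many relators. -/
def FinPres (G : Type) [Group G] : Prop :=
  ∃ (n : ℕ) (R : Set (FreeGroup (Fin n))), R.Finite ∧ Nonempty (G ≃* PresentedGroup R)

/-- **Theorem.** `F_2 × F_2` is finitely presented and intersection-full and does not contain
`F_2 × ℤ²`. -/
theorem result :
    FinPres (FreeGroup (Fin 2) × FreeGroup (Fin 2)) ∧
    IntersectionFull (FreeGroup (Fin 2) × FreeGroup (Fin 2)) ∧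
    ¬ Contains (FreeGroup (Fin 2) × FreeGroup (Fin 2))
      (FreeGroup (Fin 2) × Multiplicative (Fin 2 → ℤ)) := by
  refine ⟨?_, ?_, ?_⟩
  · haveI := Q151.IFull.fp_FF
    obtain ⟨n, s, hs, he⟩ := Group.IsFinitelyPresented.exists_mulEquiv_presentedGroup
      (G := Q151.IFull.FF)
    exact ⟨n, s, hs, he⟩
  · intro k _ c
    obtain ⟨H, hH⟩ := Q151.IFull.realize_FF (fun I => c I ≠ 0)
    refine ⟨H, fun I hI => ?_⟩
    rw [hH I hI, not_not]
  · rintro ⟨L, ⟨e⟩⟩
    exact Q151.IFull.no_F2Z2 (L.subtype.comp e.symm.toMonoidHom)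
      (L.subtype_injective.comp e.symm.injective)

end Pool.Agent.Results.MP_d567b2_al.FreeTimesFree
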